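import Pool.Agent.Helper617.EX.Mod6

/-!
There is a model of `RCA₀` in which `EXT(ω*)` holds and induction for `Σ⁰₂` formulas fails. Hence
`RCA₀ + EXT(ω*)` does not prove `IΣ⁰₂`; in particular it does not prove `ACA₀`, nor any other
principle which implies `IΣ⁰₂`.

The model is the structure `NN` of `Pool.Agent.Helper617.EX`, a cut in a nonstandard model with the
traces of the internal sets. Its numbers carry a colouring `col` of the structure such that the set
`JJ` of all `c` with `col y ≥ c` for unboundedly many `y` is a proper cut (`JJ_zero`, `JJ_succ`,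
`exists_not_JJ`). It is `Π⁰₂`; reflected at a number `c₀` outside of it, it gives a `Σ⁰₂` formula
which holds for `0`, is inductive, and fails at `c₀`.
-/

namespace Pool.Agent.Results.MP_7fe518_lc.ExtWithoutSigmaTwo

open Pool.Agent.Helper617 Pool.Agent.Helper617.RM Pool.Agent.Helper617.EX

universe u

/-- The scheme `IΣ⁰₂`: induction for all formulas `∃ x, ∀ y, θ(y, x, n)` with `θ` a `Δ⁰₀` formula
with number and set parameters from the structure. -/
def SigmaTwoInduction (N : L2Structure.{u}) : Prop :=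
  ∀ (θ : Delta0 N) (v : ℕ → N.M),
    (∃ x, ∀ y, θ.Holds (RM.cons y (RM.cons x (RM.cons N.zero v)))) →
    (∀ n, (∃ x, ∀ y, θ.Holds (RM.cons y (RM.cons x (RM.cons n v)))) →
      ∃ x, ∀ y, θ.Holds (RM.cons y (RM.cons x (RM.cons (N.add n N.one) v)))) →
    ∀ n, ∃ x, ∀ y, θ.Holds (RM.cons y (RM.cons x (RM.cons n v)))

/-- `Σ⁰₂` induction fails in the structure. -/
theorem not_ind : ¬ SigmaTwoInduction NN := by
  intro h
  obtain ⟨c₀, hc₀⟩ := exists_not_JJ
  let A : NN.Sets := ⟨_, CC_mem⟩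
  -- variables: `0` is `m`, `1` is `y`, `2` is `x`, `3` is `n`
  let θ : Delta0 NN := .neg (.ball (.add (.const c₀) .one) (.neg (.and
    (.eq (.add (.var 0) (.var 3)) (.const c₀))
    (.neg (.and (.lt (.var 2) (.var 1)) (.mem (pairT (.var 1) (.var 0)) A))))))
  have hθ : ∀ n x y, θ.Holds (RM.cons y (RM.cons x (RM.cons n fun _ => NN.zero))) ↔
      ∃ m, m + n = c₀ ∧ ¬ (NN.lt x y ∧ Ev fun t => rp m t ≤ cl t (rp y t)) := by
    intro n x y
    have h1 : θ.Holds (RM.cons y (RM.cons x (RM.cons n fun _ => NN.zero))) ↔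
        ¬ ∀ m, NN.lt m (NN.add c₀ NN.one) → ¬ (NN.add m n = c₀ ∧
          ¬ (NN.lt x y ∧ NN.pair y m ∈ (A : Set NN.M))) := Iff.rfl
    rw [h1]
    push Not
    constructor
    · rintro ⟨m, _, h3, h4⟩
      exact ⟨m, h3, fun h5 h6 => h4 h5 ((mem_CS y m).2 h6)⟩
    · rintro ⟨m, h3, h4⟩
      refine ⟨m, ?_, h3, fun h5 h6 => h4 h5 ((mem_CS y m).1 h6)⟩
      refine (IsModelRCA0.ax_lt_succ m c₀).2 ?_
      have h7 : m ≤ c₀ := (le_iff_add' m c₀).2 ⟨n, h3.symm⟩
      exact h7.lt_or_eq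
  have hθ2 : ∀ n, (∃ x, ∀ y, θ.Holds (RM.cons y (RM.cons x (RM.cons n fun _ => NN.zero)))) ↔
      ∃ m, m + n = c₀ ∧ ¬ JJ m := by
    intro n
    constructor
    · rintro ⟨x, hx⟩
      obtain ⟨m, hm, _⟩ := (hθ n x NN.zero).1 (hx _)
      refine ⟨m, hm, fun hJ => ?_⟩
      obtain ⟨y, hy1, hy2⟩ := hJ x
      obtain ⟨m', hm', h2⟩ := (hθ n x y).1 (hx y)
      have e : m' = m := add_cancel' (hm'.trans hm.symm)
      subst e
      exact h2 ⟨hy1, hy2⟩
    · rintro ⟨m, hm, hJ⟩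
      unfold JJ at hJ
      push Not at hJ
      obtain ⟨x, hx⟩ := hJ
      exact ⟨x, fun y => (hθ n x y).2 ⟨m, hm, fun h2 => hx y h2.1 h2.2⟩⟩
  have hstep := h θ (fun _ => NN.zero) ((hθ2 _).2 ⟨c₀, IsModelRCA0.ax_add_zero c₀, hc₀⟩) ?_ c₀
  · obtain ⟨m, hm, hJ⟩ := (hθ2 c₀).1 hstep
    have e : m = 0 := add_cancel' (hm.trans (zero_add c₀).symm)
    exact hJ (by rw [e]; exact JJ_zero)
  · intro n hn
    obtain ⟨m, hm, hJ⟩ := (hθ2 n).1 hn
    rcases eq_zero_or_succ m with h0 | ⟨m', hm'⟩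
    · exact absurd (by rw [h0]; exact JJ_zero) hJ
    · refine (hθ2 _).2 ⟨m', ?_, fun hJ' => hJ (by rw [hm']; exact JJ_succ hJ')⟩
      have e : m' + (n + 1) = m' + 1 + n := by ring
      show m' + (n + 1) = c₀
      rw [e, ← hm', hm]

/-- **Main theorem.** There is a structure for second-order arithmetic which is a model of
`RCA₀` and of `EXT(ω*)`, and in which `Σ⁰₂` induction fails; in particular arithmetical
comprehension fails. -/
theorem result : ∃ N : L2Structure.{0}, IsModelRCA0 N ∧ ExtOmegaStar N ∧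
    ¬ SigmaTwoInduction N ∧ ¬ ArithComp N :=
  ⟨NN, isModel, ext, not_ind, not_arith⟩

end Pool.Agent.Results.MP_7fe518_lc.ExtWithoutSigmaTwo
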